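import Pool.Agent.X216.ML.Cross

/-!
# Zeros of the Mittag-Leffler function on the imaginary axis

For some `α` in `(3/4, 1)` the Mittag-Leffler function `E_{α,1}` has a zero on the imaginary axis.
-/

namespace Pool.Agent.Results.MP_ff8adc_an.ImaginaryZero

/-- The Mittag-Leffler function `E_{α,1}(z) = ∑ z^k / Γ(α k + 1)`. -/
noncomputable def E (α : ℝ) (z : ℂ) : ℂ := ∑' k : ℕ, z ^ k / Complex.Gamma ((α : ℂ) * k + 1)

lemma E_eq (α : ℝ) (z : ℂ) : E α z = Pool.Agent.X216.ML.MLf α z := by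
  unfold E Pool.Agent.X216.ML.MLf
  congr 1
  funext k
  rw [← Complex.Gamma_ofReal]
  push_cast
  rfl

/-- The negated form of Q1: there are `α ∈ (3/5, 1)` (even `α > 3/4`) and a real `t` (even `t > 0`)
with `E_{α,1}(i t) = 0`. The series converges there (absolutely), so this is not a junk value. -/
theorem result : ∃ α : ℝ, 3 / 4 < α ∧ α < 1 ∧ ∃ t : ℝ, 0 < t ∧
    Summable (fun k : ℕ => (Complex.I * t) ^ k / Complex.Gamma ((α : ℂ) * k + 1)) ∧
    E α (Complex.I * t) = 0 := by
  obtain ⟨a, h1, h2, t, ht, h⟩ := Pool.Agent.X216.ML.exists_zero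
  refine ⟨a, h1, h2, t, ht, ?_, ?_⟩
  · obtain ⟨C, hC⟩ := Pool.Agent.X216.ML.term_bound (a := a) (by linarith)
      (R := ‖Complex.I * (t : ℂ)‖) (norm_nonneg _)
    apply Summable.of_norm_bounded (g := fun k : ℕ => C * (1 / 2) ^ k)
      ((summable_geometric_of_lt_one (by norm_num) (by norm_num)).mul_left C)
    intro k
    have e : Complex.Gamma ((a : ℂ) * k + 1) = (Real.Gamma (a * k + 1) : ℂ) := by
      rw [← Complex.Gamma_ofReal]; push_cast; rfl
    rw [e]
    exact hC k _ le_rfl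
  · rw [E_eq]; exact h

end Pool.Agent.Results.MP_ff8adc_an.ImaginaryZero
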